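import Pool.Agent.N39.RW.UniI
import Pool.Agent.N39.RW.UniV
import Pool.Agent.H141R2.FS.Main1

set_option autoImplicit false

/-!
# Four squares: `p - 2, p, p + 4, p + 10` with a prime, a product of two primes and almost primes, in short windows

For every large `n` not divisible by `4`, the numbers `p` of the form `x + 2 y + 5 z` with
`n = x² + y² + z² + w²`, for which any prescribed one of `p - 2, p, p + 4, p + 10` is prime, any other prescribed one
is a product of at most two primes, and the others are almost primes, occur with the right frequency in ALL windows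
around a positive proportion of the integers of size `√n`.
-/

namespace Pool.Agent.Results.MP_40574a_nt.ChenQuadruplesInWindows

open Filter

/-- `p` is the value of `x + 2 y + 5 z` at a representation of `n` as a sum of four squares of natural numbers -/
def Val (n p : ℕ) : Prop := ∃ x y z w : ℕ, n = x ^ 2 + y ^ 2 + z ^ 2 + w ^ 2 ∧ p = x + 2 * y + 5 * z

/-- with `p = m + 2`: the numbers `p - 2, p, p + 4, p + 10` -/
def num (l : Fin 4) (m : ℕ) : ℕ := m + ![0, 2, 6, 12] l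

/-- `p = m + 2` is a value at a representation of `n`, number `i` is prime, number `j` is a product of at most two
primes, and all four numbers are products of at most `r` primes, all larger than `z` -/
def Good (n : ℕ) (i j : Fin 4) (r : ℕ) (z : ℝ) (m : ℕ) : Prop :=
  Val n (m + 2) ∧ (num i m).Prime ∧ (num j m).primeFactorsList.length ≤ 2 ∧
    ∀ l, (num l m).primeFactorsList.length ≤ r ∧ ∀ q : ℕ, q.Prime → q ∣ num l m → z < (q : ℝ)

/-- all prime factors of the four numbers are larger than `z` -/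
def Sieved (z : ℝ) (m : ℕ) : Prop := ∀ l, ∀ q : ℕ, q.Prime → q ∣ num l m → z < (q : ℝ)

/-- `s` is regular: in ALL windows `(u, v]` with `u ≤ s ≤ v` and `K (log X) ^ 4 ≤ v - u ≤ s` there are at
least `c₁ (v - u) / (log X) ^ 4` good `m`, and at most `c₂ (v - u) / (log X) ^ 4` sieved `m`, at the level
`X ^ (1 / r)`. -/
def Regular (n : ℕ) (i j : Fin 4) (r : ℕ) (c₁ c₂ K : ℝ) (X s : ℕ) : Prop :=
  ∀ u v : ℕ, u ≤ s → s ≤ v → K * Real.log X ^ 4 ≤ (v : ℝ) - u → (v : ℝ) - u ≤ s →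
    c₁ * ((v : ℝ) - u) / Real.log X ^ 4 ≤
      ({m : ℕ | u < m ∧ m ≤ v ∧ Good n i j r ((X : ℝ) ^ (1 / (r : ℝ))) m}.ncard : ℝ) ∧
    ({m : ℕ | u < m ∧ m ≤ v ∧ Sieved ((X : ℝ) ^ (1 / (r : ℝ))) m}.ncard : ℝ) ≤
      c₂ * ((v : ℝ) - u) / Real.log X ^ 4

/-- the shifts -/
def sh : Fin 4 → ℕ := ![0, 2, 6, 12]

theorem sh_inj : Function.Injective sh := by
  intro l l' h
  fin_cases l <;> fin_cases l' <;> simp [sh] at h <;> rfl

theorem sh_adm (p : ℕ) (hp : p.Prime) : ∃ n : ℕ, ∀ l, ¬ p ∣ n + sh l := by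
  have key : ∀ q : ℕ, q.Prime → p ≠ q → ¬ p ∣ q := fun q hq h hd =>
    h ((Nat.prime_dvd_prime_iff_eq hp hq).1 hd)
  by_cases h : p = 11 ∨ p = 13 ∨ p = 17 ∨ p = 23
  · refine ⟨41, ?_⟩
    rcases h with rfl | rfl | rfl | rfl <;> decide
  · push Not at h
    refine ⟨11, fun l => ?_⟩
    fin_cases l
    · exact key 11 (by norm_num) h.1
    · exact key 13 (by norm_num) h.2.1
    · exact key 17 (by norm_num) h.2.2.1
    · exact key 23 (by norm_num) h.2.2.2

/-- the form -/
theorem form (l : Fin 4) (m : ℕ) : (1 : ℤ) * (m : ℤ) + (sh l : ℤ) = ((num l m : ℕ) : ℤ) := by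
  unfold num sh
  push_cast
  ring

theorem V_eq (X : ℕ) : Pool.Agent.W123.RP.Vq (Pool.Agent.N39.RW.QL (fun _ => 1) (fun l => (sh l : ℤ))) X =
    Pool.Agent.W123.RP.Vq (Pool.Agent.N39.RW.QS sh) X := by
  rw [← Pool.Agent.N39.RW.VL_QL, Pool.Agent.N39.RW.VL_QS]

theorem tend : Tendsto (fun n : ℕ => Nat.sqrt (29 * n)) atTop atTop := by
  rw [tendsto_atTop]
  intro b
  filter_upwards [eventually_ge_atTop (b * b)] with n hn
  rw [Nat.le_sqrt]
  omega

theorem result : ∃ (r : ℕ) (c₁ c₂ K μ : ℝ), 1 ≤ r ∧ 0 < c₁ ∧ 0 < c₂ ∧ 0 < K ∧ 0 < μ ∧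
    ∀ᶠ n : ℕ in atTop, ¬ 4 ∣ n → ∀ i j : Fin 4, i ≠ j → ∀ X : ℕ, X = Nat.sqrt (29 * n) →
      μ * X ≤ ({s : ℕ | X < s ∧ s ≤ 2 * X ∧ Regular n i j r c₁ c₂ K X s}.ncard : ℝ) := by
  classical
  obtain ⟨r, hr, c₁, c₂, K, μ, hc₁, hc₂, hK, hμ, H⟩ := Pool.Agent.N39.RW.uniGI 4 1 (by omega) (1 / 100) (by norm_num)
  obtain ⟨v₀, C₀, hv₀, hC₀, hV⟩ := Pool.Agent.N39.RW.Vfix (by norm_num : 2 ≤ 4) sh sh_inj sh_adm
  refine ⟨r, c₁ * v₀, c₂ * C₀, K / v₀, μ, hr, by positivity, by positivity, by positivity, hμ, ?_⟩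
  have hrpos : (0 : ℝ) < r := by exact_mod_cast hr
  have hpow : Tendsto (fun X : ℕ => (X : ℝ) ^ (1 / (r : ℝ))) atTop atTop :=
    (tendsto_rpow_atTop (by positivity)).comp tendsto_natCast_atTop_atTop
  filter_upwards [tend.eventually (H 12), tend.eventually hV, tend.eventually_ge_atTop 1000,
    tend.eventually (hpow.eventually_ge_atTop 5)] with n hn hVn hX1000 hz
  intro h4 i j hij X hX
  rw [← hX] at hn hVn hX1000 hz
  obtain ⟨Y, hY⟩ : ∃ Y : ℕ, Y = Nat.sqrt (30 * n) := ⟨_, rfl⟩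
  have hX1 : X * X ≤ 29 * n := by
    rw [hX]
    exact Nat.sqrt_le _
  have hX2 : 29 * n < (X + 1) * (X + 1) := by
    rw [hX]
    exact Nat.lt_succ_sqrt _
  have hY1 : Y * Y ≤ 30 * n := by
    rw [hY]
    exact Nat.sqrt_le _
  have hY2 : 30 * n < (Y + 1) * (Y + 1) := by
    rw [hY]
    exact Nat.lt_succ_sqrt _
  have hXr : (1000 : ℝ) ≤ X := by exact_mod_cast hX1000
  have hX1r : (X : ℝ) * X ≤ 29 * n := by exact_mod_cast hX1
  have hY2r : 30 * (n : ℝ) < ((Y : ℝ) + 1) * (Y + 1) := by exact_mod_cast hY2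
  have hYr : (101 / 100 : ℝ) * X + 2 ≤ Y := by
    by_contra hcon
    push Not at hcon
    have hY0 : (0 : ℝ) ≤ Y := Nat.cast_nonneg Y
    have h1 : ((Y : ℝ) + 1) * (Y + 1) ≤ (101 / 100 * X + 3) * (101 / 100 * X + 3) := by
      apply mul_le_mul <;> linarith
    have h2 : (101 / 100 * (X : ℝ) + 3) * (101 / 100 * X + 3) ≤ 30 / 29 * (X * X) := by nlinarith
    linarith
  have hYX : Y ≤ 2 * X := by
    by_contra hcon
    push Not at hcon
    have h1 : (2 * X + 1) * (2 * X + 1) ≤ Y * Y := Nat.mul_le_mul hcon hcon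
    nlinarith
  have hY2' : 2 ≤ Y := by
    have : (2 : ℝ) ≤ Y := by linarith
    exact_mod_cast this
  have hlX : 0 < Real.log X := Real.log_pos (by linarith)
  rw [← V_eq X] at hVn
  obtain ⟨q1, q2⟩ := hVn
  obtain ⟨V, hVd⟩ : ∃ V : ℝ, V = Pool.Agent.W123.RP.Vq
    (Pool.Agent.N39.RW.QL (fun _ : Fin 4 => 1) (fun l => (sh l : ℤ))) X := ⟨_, rfl⟩
  have hcast : ((Y - 2 : ℕ) : ℝ) = (Y : ℝ) - 2 := by
    rw [Nat.cast_sub hY2']
    norm_num
  have hX' := hn (fun _ => 1) (fun l => (sh l : ℤ)) i j (fun _ => one_ne_zero) (fun _ => by simp) (by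
      intro l
      rw [Int.natAbs_natCast]
      have : sh l ≤ 12 := by fin_cases l <;> simp [sh]
      omega) (by
      intro p hp
      obtain ⟨m, hm⟩ := sh_adm p hp
      refine ⟨m, fun l hd => hm l ?_⟩
      rw [form] at hd
      exact Int.natCast_dvd_natCast.1 hd) (by
      intro h2
      simp only [Prod.mk.injEq, true_and] at h2
      have h3 : sh j = sh i := by exact_mod_cast h2
      exact hij (sh_inj h3).symm) (by
      intro h2
      simp at h2) X (Y - 2) le_rfl (by omega) (by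
      rw [hcast]
      linarith)
  rw [← hVd] at hX' q1 q2
  have hVpos : 0 < V := lt_of_lt_of_le (by positivity) q1
  refine hX'.trans ?_
  rw [← Set.ncard_coe_finset]
  refine Nat.cast_le.2 (Set.ncard_le_ncard ?_ ((Set.finite_Iic (2 * X)).subset fun n hn => hn.2.1))
  intro s hs
  rw [Finset.mem_coe, Finset.mem_filter, Finset.mem_Ioc] at hs
  obtain ⟨⟨hs1, hs2⟩, hs3⟩ := hs
  refine ⟨hs1, hs2, fun u v hu hv h1 h2 => ?_⟩
  have hvu : 0 ≤ (v : ℝ) - u := by
    have : (u : ℝ) ≤ v := by exact_mod_cast hu.trans hv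
    linarith
  obtain ⟨h3, h5⟩ := hs3 u v hu hv (by
    refine le_trans ?_ h1
    rw [div_le_iff₀ hVpos]
    calc K = (K / v₀ * Real.log X ^ 4) * (v₀ / Real.log X ^ 4) := by field_simp
      _ ≤ _ := mul_le_mul_of_nonneg_left q1 (by positivity)) h2
  have hcv : ∀ (P : ℕ → Prop), (((Finset.Ioc u v).filter (fun m => P m)).card) =
      Set.ncard {n : ℕ | u < n ∧ n ≤ v ∧ P n} := by
    intro P
    rw [← Set.ncard_coe_finset]
    congr 1
    ext m
    rw [Finset.mem_coe, Finset.mem_filter, Finset.mem_Ioc, and_assoc]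
    rfl
  rw [hcv] at h3 h5
  constructor
  · calc c₁ * v₀ * ((v : ℝ) - u) / Real.log X ^ 4 = c₁ * ((v : ℝ) - u) * (v₀ / Real.log X ^ 4) := by ring
      _ ≤ c₁ * ((v : ℝ) - u) * V := mul_le_mul_of_nonneg_left q1 (by positivity)
      _ ≤ _ := h3
      _ ≤ _ := by
        refine Nat.cast_le.2 (Set.ncard_le_ncard ?_ ((Set.finite_Iic v).subset fun n hn => hn.2.1))
        rintro m ⟨h6, h7, ⟨h8, h9⟩, h10, h11, h12⟩
        simp only [form, Int.natAbs_natCast, Int.natCast_dvd_natCast] at h10 h11 h12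
        refine ⟨h6, h7, ?_, h10, h11, h12⟩
        obtain ⟨x, y, z, w, e1, e2⟩ := Pool.Agent.H141R2.FS.rep (n := n) (p := m + 2) h4 (by
            by_contra hcon
            rw [Nat.Prime.not_coprime_iff_dvd] at hcon
            obtain ⟨q, hq, hq1, hq2⟩ := hcon
            have h13 := (h12 1).2 q hq hq1
            have h14 : (5 : ℝ) < q := by linarith
            have h15 : 5 < q := by exact_mod_cast h14
            have h16 := Nat.le_of_dvd (by norm_num) hq2
            interval_cases q <;> first | omega | (revert hq; decide)) (by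
            have : (X + 1) * (X + 1) ≤ (m + 2) * (m + 2) := Nat.mul_le_mul (by omega) (by omega)
            rw [sq]
            omega) (by
            have : (m + 2) * (m + 2) ≤ Y * Y := Nat.mul_le_mul (by omega) (by omega)
            rw [sq]
            omega)
        exact ⟨x, y, z, w, e1, e2.symm⟩
  · have e : {m : ℕ | u < m ∧ m ≤ v ∧ Pool.Agent.N39.RW.GR (fun _ : Fin 4 => 1) (fun l => (sh l : ℤ))
        ((X : ℝ) ^ (1 / (r : ℝ))) m} = {m : ℕ | u < m ∧ m ≤ v ∧ Sieved ((X : ℝ) ^ (1 / (r : ℝ))) m} := by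
      ext m
      unfold Pool.Agent.N39.RW.GR Sieved
      simp only [form, Int.natCast_dvd_natCast]
    rw [e] at h5
    calc _ ≤ c₂ * ((v : ℝ) - u) * V := h5
      _ ≤ c₂ * ((v : ℝ) - u) * (C₀ / Real.log X ^ 4) := mul_le_mul_of_nonneg_left q2 (by positivity)
      _ = _ := by ring

end Pool.Agent.Results.MP_40574a_nt.ChenQuadruplesInWindows
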