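import Pool.Agent.N798.S2.All
import Pool.Agent.H141R2.FS.Main1

/-!
# Four squares and prime patterns with almost all real multipliers, for every large integer

Let `P_0, …, P_{k-1}` be real polynomials of positive degrees `d_i` with positive leading coefficients.  For
almost every `(α_0, …, α_{k-1})` in `(0, ∞)^k` and all integers `b_i` EVERY large `n` which is not divisible
by `4` is a sum `x² + y² + z² + w²` (natural numbers) such that `p = x + 2 y + 5 z` and all the integers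
`⌊α_i P_i(p)⌋ + b_i` are primes, and the number of these `p` in `[√(29 n), √(30 n)]` has the expected
asymptotics.  The same holds for almost all real polynomials of given degrees, and for the patterns
`p, ⌊α p⌋ - 2, ⌊β p⌋ + 4, ⌊γ p⌋ + 10`.
-/

set_option autoImplicit false

namespace Pool.Agent.Results.MP_40574a_nt.MetricPatterns

open Finset MeasureTheory Filter Topology Polynomial

/-- `p` is the value of `x + 2 y + 5 z` at a representation of `n` as a sum of four squares of natural numbers -/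
def Value (n p : ℕ) : Prop :=
  ∃ x y z w : ℕ, n = x ^ 2 + y ^ 2 + z ^ 2 + w ^ 2 ∧ p = x + 2 * y + 5 * z

open Classical in
/-- the number of the primes `p` with `29 n ≤ p² ≤ 30 n` which are values of `x + 2 y + 5 z` at
representations of `n` and for which all the integers `⌊f_i(p)⌋ + b_i` are primes -/
noncomputable def count {k : ℕ} (f : Fin k → ℝ → ℝ) (b : Fin k → ℤ) (n : ℕ) : ℕ :=
  #((range (30 * n + 1)).filter fun p : ℕ => (29 * n ≤ p ^ 2 ∧ p ^ 2 ≤ 30 * n) ∧ Value n p ∧ p.Prime ∧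
    ∀ i, (⌊f i (p : ℝ)⌋ + b i).toNat.Prime)

/-- the value at `x` of the polynomial with the coefficients `a_0, …, a_D` -/
noncomputable def val {D : ℕ} (a : Fin (D + 1) → ℝ) (x : ℝ) : ℝ := ∑ j, a j * x ^ (j : ℕ)

/-- the primes `p ≤ N` for which all the `⌊f_i(p)⌋ + b_i` are primes -/
noncomputable def cnt {k : ℕ} (f : Fin k → ℝ → ℝ) (b : Fin k → ℤ) (N : ℕ) : ℕ :=
  #((Icc 1 N).filter fun p : ℕ => p.Prime ∧ ∀ i, (⌊f i (p : ℝ)⌋ + b i).toNat.Prime)

lemma sqrt_lim (a : ℕ → ℕ) (A : ℝ) (h : Tendsto (fun n : ℕ => (a n : ℝ) / n) atTop (𝓝 A)) :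
    Tendsto (fun n : ℕ => (Nat.sqrt (a n) : ℝ) / √(n : ℝ)) atTop (𝓝 (√A)) := by
  have h1 : Tendsto (fun n : ℕ => √((a n : ℝ) / n)) atTop (𝓝 (√A)) := (Real.continuous_sqrt.tendsto A).comp h
  have h2 : Tendsto (fun n : ℕ => 1 / √(n : ℝ)) atTop (𝓝 0) := by
    have : Tendsto (fun n : ℕ => √(n : ℝ)) atTop atTop :=
      Real.tendsto_sqrt_atTop.comp tendsto_natCast_atTop_atTop
    refine this.inv_tendsto_atTop.congr fun n => ?_
    rw [Pi.inv_apply, one_div]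
  have h3 : Tendsto (fun n : ℕ => √((a n : ℝ) / n) - 1 / √(n : ℝ)) atTop (𝓝 (√A)) := by
    simpa using h1.sub h2
  refine tendsto_of_tendsto_of_tendsto_of_le_of_le' h3 h1 ?_ ?_
  · filter_upwards [eventually_gt_atTop 0] with n hn
    have hn' : (0 : ℝ) < √(n : ℝ) := Real.sqrt_pos.2 (by exact_mod_cast hn)
    rw [Real.sqrt_div (Nat.cast_nonneg _), ← sub_div]
    refine div_le_div_of_nonneg_right ?_ hn'.le
    have := Real.real_sqrt_le_nat_sqrt_succ (a := a n)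
    linarith
  · filter_upwards with n
    rw [Real.sqrt_div (Nat.cast_nonneg _)]
    exact div_le_div_of_nonneg_right Real.nat_sqrt_le_real_sqrt (Real.sqrt_nonneg _)

lemma lim_c {k : ℕ} (c : ℕ → ℝ) (L : ℝ)
    (h : Tendsto (fun N : ℕ => c N * (Real.log N) ^ (1 + k) / N) atTop (𝓝 L)) (m : ℕ → ℕ) (s : ℝ) (hs : 0 < s)
    (hm : Tendsto (fun n : ℕ => (m n : ℝ) / √(n : ℝ)) atTop (𝓝 s)) :
    Tendsto (fun n : ℕ => c (m n) / (√(n : ℝ) / (Real.log n) ^ (k + 1))) atTop (𝓝 (s * 2 ^ (k + 1) * L)) := by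
  have hsq : Tendsto (fun n : ℕ => √(n : ℝ)) atTop atTop :=
    Real.tendsto_sqrt_atTop.comp tendsto_natCast_atTop_atTop
  have hlog : Tendsto (fun n : ℕ => Real.log (n : ℝ)) atTop atTop :=
    Real.tendsto_log_atTop.comp tendsto_natCast_atTop_atTop
  have hmR : Tendsto (fun n : ℕ => (m n : ℝ)) atTop atTop := by
    refine (hm.pos_mul_atTop hs hsq).congr' ?_
    filter_upwards [eventually_gt_atTop 0] with n hn
    have hn' : (0 : ℝ) < √(n : ℝ) := Real.sqrt_pos.2 (by exact_mod_cast hn)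
    field_simp
  have hmN : Tendsto m atTop atTop := tendsto_natCast_atTop_iff.1 hmR
  have h1 := h.comp hmN
  have h2 : Tendsto (fun n : ℕ => Real.log (m n : ℝ) / Real.log n) atTop (𝓝 (1 / 2)) := by
    have e1 : Tendsto (fun n : ℕ => Real.log ((m n : ℝ) / √(n : ℝ)) / Real.log n + 1 / 2) atTop (𝓝 (0 + 1 / 2)) := by
      refine Tendsto.add ?_ tendsto_const_nhds
      exact (hm.log hs.ne').div_atTop hlog
    rw [zero_add] at e1
    refine e1.congr' ?_
    filter_upwards [hmR.eventually_gt_atTop 0, eventually_gt_atTop 1] with n hn h1n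
    have hn0 : (0 : ℝ) < n := by exact_mod_cast (zero_lt_one.trans h1n)
    have hn' : (0 : ℝ) < √(n : ℝ) := Real.sqrt_pos.2 hn0
    have hl : 0 < Real.log (n : ℝ) := Real.log_pos (by exact_mod_cast h1n)
    rw [Real.log_div hn.ne' hn'.ne', Real.log_sqrt hn0.le]
    field_simp
    ring
  have h3 : Tendsto (fun n : ℕ => (Real.log n / Real.log (m n : ℝ)) ^ (k + 1)) atTop (𝓝 (2 ^ (k + 1))) := by
    have := (h2.inv₀ (by norm_num)).pow (k + 1)
    refine (this.congr fun n => ?_).trans_eq ?_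
    · rw [inv_div]
    · norm_num
  have h4 := (hm.mul h3).mul h1
  refine h4.congr' ?_
  filter_upwards [hmR.eventually_gt_atTop 1, eventually_gt_atTop 1] with n hn h1n
  have hn0 : (0 : ℝ) < n := by exact_mod_cast (zero_lt_one.trans h1n)
  have hn' : (0 : ℝ) < √(n : ℝ) := Real.sqrt_pos.2 hn0
  have hl : 0 < Real.log (n : ℝ) := Real.log_pos (by exact_mod_cast h1n)
  have hl2 : 0 < Real.log (m n : ℝ) := Real.log_pos hn
  have hm0 : (0 : ℝ) < m n := by linarith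
  simp only [Function.comp_apply]
  rw [add_comm 1 k, div_pow]
  field_simp

lemma split {k : ℕ} (f : Fin k → ℝ → ℝ) (b : Fin k → ℤ) {n : ℕ} (hn : 1 ≤ n) (h4 : ¬ 4 ∣ n) :
    (count f b n : ℝ) = cnt f b (Nat.sqrt (30 * n)) - cnt f b (Nat.sqrt (29 * n - 1)) := by
  classical
  have hle : Nat.sqrt (29 * n - 1) ≤ Nat.sqrt (30 * n) := Nat.sqrt_le_sqrt (by omega)
  have h1 : cnt f b (Nat.sqrt (30 * n)) = cnt f b (Nat.sqrt (29 * n - 1)) + count f b n := by
    unfold cnt count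
    rw [← Finset.card_union_of_disjoint]
    · congr 1
      ext p
      simp only [mem_filter, mem_Icc, mem_union, mem_range]
      constructor
      · rintro ⟨⟨h1, h2⟩, h3, h5⟩
        by_cases h6 : p ≤ Nat.sqrt (29 * n - 1)
        · exact Or.inl ⟨⟨h1, h6⟩, h3, h5⟩
        · right
          push Not at h6
          have h7 : 29 * n - 1 < p ^ 2 := by
            have := Nat.sqrt_lt'.1 h6
            exact this
          have h8 : p ^ 2 ≤ 30 * n := Nat.le_sqrt'.1 h2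
          have h9 : 29 * n ≤ p ^ 2 := by omega
          have hp5 : 5 < p := by nlinarith
          have h10 : Nat.Coprime p 30 := by
            rw [Nat.Prime.coprime_iff_not_dvd h3]
            intro hd
            have hd2 : p ∣ 2 * 3 * 5 := hd
            rcases (Nat.Prime.dvd_mul h3).1 hd2 with hd3 | hd3
            · rcases (Nat.Prime.dvd_mul h3).1 hd3 with hd4 | hd4
              · exact absurd (Nat.le_of_dvd (by norm_num) hd4) (by omega)
              · exact absurd (Nat.le_of_dvd (by norm_num) hd4) (by omega)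
            · exact absurd (Nat.le_of_dvd (by norm_num) hd3) (by omega)
          obtain ⟨x, y, z, w, h11, h12⟩ := Pool.Agent.H141R2.FS.rep h4 h10 h9 h8
          exact ⟨by nlinarith, ⟨h9, h8⟩, ⟨x, y, z, w, h11, h12.symm⟩, h3, h5⟩
      · rintro (⟨⟨h1, h2⟩, h3, h5⟩ | ⟨h0, ⟨h1, h2⟩, h3, h5, h6⟩)
        · exact ⟨⟨h1, h2.trans hle⟩, h3, h5⟩
        · exact ⟨⟨h5.one_lt.le, Nat.le_sqrt'.2 h2⟩, h5, h6⟩
    · rw [Finset.disjoint_left]
      intro p hp hq
      simp only [mem_filter, mem_Icc, mem_range] at hp hq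
      have h7 : p ^ 2 ≤ 29 * n - 1 := Nat.le_sqrt'.1 hp.1.2
      have := hq.2.1.1
      omega
  rw [h1]
  push_cast
  ring

/-- the asymptotic formula from the one for the primes up to `N` -/
lemma key {k : ℕ} (f : Fin k → ℝ → ℝ) (b : Fin k → ℤ) (L : ℝ)
    (h : Tendsto (fun N : ℕ => (cnt f b N : ℝ) * (Real.log N) ^ (1 + k) / N) atTop (𝓝 L)) :
    Tendsto (fun n : ℕ => (count f b n : ℝ) / (√(n : ℝ) / (Real.log n) ^ (k + 1)))
      (atTop ⊓ 𝓟 {n | ¬ 4 ∣ n}) (𝓝 ((√30 - √29) * 2 ^ (k + 1) * L)) := by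
  have a1 : Tendsto (fun n : ℕ => ((30 * n : ℕ) : ℝ) / n) atTop (𝓝 30) := by
    refine tendsto_const_nhds.congr' ?_
    filter_upwards [eventually_gt_atTop 0] with n hn
    have : (0 : ℝ) < n := by exact_mod_cast hn
    push_cast
    field_simp
  have a2 : Tendsto (fun n : ℕ => ((29 * n - 1 : ℕ) : ℝ) / n) atTop (𝓝 29) := by
    have e1 : Tendsto (fun n : ℕ => 29 - 1 / (n : ℝ)) atTop (𝓝 (29 - 0)) :=
      tendsto_const_nhds.sub tendsto_one_div_atTop_nhds_zero_nat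
    rw [sub_zero] at e1
    refine e1.congr' ?_
    filter_upwards [eventually_gt_atTop 0] with n hn
    have : (0 : ℝ) < n := by exact_mod_cast hn
    rw [Nat.cast_sub (by omega)]
    push_cast
    field_simp
  have b1 := lim_c (fun N => (cnt f b N : ℝ)) L h _ _ (Real.sqrt_pos.2 (by norm_num)) (sqrt_lim _ _ a1)
  have b2 := lim_c (fun N => (cnt f b N : ℝ)) L h _ _ (Real.sqrt_pos.2 (by norm_num)) (sqrt_lim _ _ a2)
  have b3 := (b1.sub b2).mono_left (inf_le_left : atTop ⊓ 𝓟 {n : ℕ | ¬ 4 ∣ n} ≤ atTop)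
  have e1 : √30 * 2 ^ (k + 1) * L - √29 * 2 ^ (k + 1) * L = (√30 - √29) * 2 ^ (k + 1) * L := by ring
  rw [e1] at b3
  refine b3.congr' ?_
  have hmem : ∀ᶠ n : ℕ in atTop ⊓ 𝓟 {n : ℕ | ¬ 4 ∣ n}, ¬ 4 ∣ n ∧ 1 ≤ n :=
    (eventually_inf_principal.2 (Eventually.of_forall fun n hn => hn)).and
      ((eventually_ge_atTop 1).filter_mono inf_le_left)
  filter_upwards [hmem] with n hn
  rw [split f b hn.2 hn.1, sub_div]

lemma exist {k : ℕ} (f : Fin k → ℝ → ℝ) (b : Fin k → ℤ) (L : ℝ) (hL : 0 < L)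
    (h : Tendsto (fun n : ℕ => (count f b n : ℝ) / (√(n : ℝ) / (Real.log n) ^ (k + 1)))
      (atTop ⊓ 𝓟 {n | ¬ 4 ∣ n}) (𝓝 L)) :
    ∀ᶠ n : ℕ in atTop, ¬ 4 ∣ n → ∃ x y z w : ℕ, n = x ^ 2 + y ^ 2 + z ^ 2 + w ^ 2 ∧
      (x + 2 * y + 5 * z).Prime ∧ ∀ i, (⌊f i ((x + 2 * y + 5 * z : ℕ) : ℝ)⌋ + b i).toNat.Prime := by
  have h1 := h.eventually (eventually_gt_nhds hL)
  rw [eventually_inf_principal] at h1
  filter_upwards [h1] with n hn h4
  have h2 := hn h4
  have h3 : 0 < count f b n := by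
    rcases Nat.eq_zero_or_pos (count f b n) with h0 | h0
    · rw [h0, Nat.cast_zero, zero_div] at h2
      exact absurd h2 (lt_irrefl _)
    · exact h0
  unfold count at h3
  obtain ⟨p, hp⟩ := Finset.card_pos.1 h3
  classical
  rw [mem_filter] at hp
  obtain ⟨-, -, ⟨x, y, z, w, h5, h6⟩, h7, h8⟩ := hp
  exact ⟨x, y, z, w, h5, h6 ▸ h7, fun i => by rw [← h6]; exact h8 i⟩

/-- **Four squares and prime patterns with almost all real multipliers, for every large integer.** -/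
theorem result :
    (∀ (k : ℕ) (P : Fin k → ℝ[X]), (∀ i, 0 < (P i).natDegree) → (∀ i, 0 < (P i).leadingCoeff) →
      ∀ᵐ α : Fin k → ℝ, (∀ i, 0 < α i) → ∀ b : Fin k → ℤ,
        Tendsto (fun n : ℕ => (count (fun i x => α i * (P i).eval x) b n : ℝ) / (√(n : ℝ) / (Real.log n) ^ (k + 1)))
          (atTop ⊓ 𝓟 {n | ¬ 4 ∣ n}) (𝓝 ((√30 - √29) * 2 ^ (k + 1) * ∏ i, 1 / ((P i).natDegree : ℝ))) ∧
        ∀ᶠ n : ℕ in atTop, ¬ 4 ∣ n → ∃ x y z w : ℕ, n = x ^ 2 + y ^ 2 + z ^ 2 + w ^ 2 ∧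
          (x + 2 * y + 5 * z).Prime ∧
          ∀ i, (⌊α i * (P i).eval ((x + 2 * y + 5 * z : ℕ) : ℝ)⌋ + b i).toNat.Prime) ∧
    (∀ (k : ℕ) (d : Fin k → ℕ), (∀ i, 0 < d i) →
      ∀ᵐ a : (i : Fin k) → Fin (d i + 1) → ℝ, (∀ i, 0 < a i (Fin.last (d i))) → ∀ b : Fin k → ℤ,
        Tendsto (fun n : ℕ => (count (fun i x => val (a i) x) b n : ℝ) / (√(n : ℝ) / (Real.log n) ^ (k + 1)))
          (atTop ⊓ 𝓟 {n | ¬ 4 ∣ n}) (𝓝 ((√30 - √29) * 2 ^ (k + 1) * ∏ i, 1 / (d i : ℝ))) ∧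
        ∀ᶠ n : ℕ in atTop, ¬ 4 ∣ n → ∃ x y z w : ℕ, n = x ^ 2 + y ^ 2 + z ^ 2 + w ^ 2 ∧
          (x + 2 * y + 5 * z).Prime ∧
          ∀ i, (⌊val (a i) ((x + 2 * y + 5 * z : ℕ) : ℝ)⌋ + b i).toNat.Prime) ∧
    (∀ᵐ α : Fin 3 → ℝ, (∀ i, 0 < α i) →
      ∀ᶠ n : ℕ in atTop, ¬ 4 ∣ n → ∃ x y z w : ℕ, n = x ^ 2 + y ^ 2 + z ^ 2 + w ^ 2 ∧
        ∃ p : ℕ, p = x + 2 * y + 5 * z ∧ p.Prime ∧ (⌊α 0 * p⌋ - 2).toNat.Prime ∧ (⌊α 1 * p⌋ + 4).toNat.Prime ∧
          (⌊α 2 * p⌋ + 10).toNat.Prime) := by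
  have hpos : 0 < √30 - √29 := sub_pos.2 (Real.sqrt_lt_sqrt (by norm_num) (by norm_num))
  have h1 : ∀ (k : ℕ) (P : Fin k → ℝ[X]), (∀ i, 0 < (P i).natDegree) → (∀ i, 0 < (P i).leadingCoeff) →
      ∀ᵐ α : Fin k → ℝ, (∀ i, 0 < α i) → ∀ b : Fin k → ℤ,
        Tendsto (fun n : ℕ => (count (fun i x => α i * (P i).eval x) b n : ℝ) / (√(n : ℝ) / (Real.log n) ^ (k + 1)))
          (atTop ⊓ 𝓟 {n | ¬ 4 ∣ n}) (𝓝 ((√30 - √29) * 2 ^ (k + 1) * ∏ i, 1 / ((P i).natDegree : ℝ))) ∧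
        ∀ᶠ n : ℕ in atTop, ¬ 4 ∣ n → ∃ x y z w : ℕ, n = x ^ 2 + y ^ 2 + z ^ 2 + w ^ 2 ∧
          (x + 2 * y + 5 * z).Prime ∧
          ∀ i, (⌊α i * (P i).eval ((x + 2 * y + 5 * z : ℕ) : ℝ)⌋ + b i).toNat.Prime := by
    intro k P hd hP
    filter_upwards [Pool.Agent.N798.S2.main_poly Pool.Agent.N798.S2.phpP Pool.Agent.N798.S2.pnP P hP hd] with α hα hp b
    obtain ⟨h2, -⟩ := hα hp b
    have h3 := key (fun i x => α i * (P i).eval x) b _ h2
    refine ⟨h3, exist (fun i x => α i * (P i).eval x) b _ ?_ h3⟩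
    refine mul_pos (mul_pos hpos (by positivity)) (Finset.prod_pos fun i _ => ?_)
    have : (0 : ℝ) < (P i).natDegree := by exact_mod_cast hd i
    positivity
  refine ⟨h1, ?_, ?_⟩
  · intro k d hd
    filter_upwards [Pool.Agent.N798.S2.main_all Pool.Agent.N798.S2.phpP Pool.Agent.N798.S2.pnP d hd] with a ha hp b
    obtain ⟨h2, -⟩ := ha hp b
    have h3 := key (fun i x => val (a i) x) b _ h2
    refine ⟨h3, exist (fun i x => val (a i) x) b _ ?_ h3⟩
    refine mul_pos (mul_pos hpos (by positivity)) (Finset.prod_pos fun i _ => ?_)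
    have : (0 : ℝ) < d i := by exact_mod_cast hd i
    positivity
  · filter_upwards [h1 3 (fun _ => X) (fun _ => by rw [natDegree_X]; exact one_pos)
      (fun _ => by rw [leadingCoeff_X]; exact one_pos)] with α hα hp
    obtain ⟨-, h2⟩ := hα hp ![-2, 4, 10]
    filter_upwards [h2] with n hn h4
    obtain ⟨x, y, z, w, h5, h6, h7⟩ := hn h4
    refine ⟨x, y, z, w, h5, _, rfl, h6, ?_, ?_, ?_⟩
    · have := h7 0
      simpa [sub_eq_add_neg] using this
    · have := h7 1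
      simpa using this
    · have := h7 2
      simpa using this

end Pool.Agent.Results.MP_40574a_nt.MetricPatterns
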