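import Mathlib
import Pool.Agent.N909.TF.Tools
import Pool.Agent.H141R2.FS.Main1

set_option autoImplicit false

/-!
# Four squares whose linear form starts a prime quadruple, in every sequential random model of the primes

The question is whether every integer `n > 1` not divisible by `4` has a representation
`n = x² + y² + z² + w²` with natural numbers for which `p - 2`, `p`, `p + 4`, `p + 10` are prime,
`p = x + 2 y + 5 z`.  We answer it for all large integers not divisible by `4`, with an asymptotic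
formula for the number of values `p`, in EVERY sequential random model of the primes: the integers are
decided one after the other, only integers coprime to a fixed `Q` can be chosen, and the conditional
probability of choosing `n + 1` (coprime to `Q`) given the past is asymptotic to
`(Q / φ(Q)) / log n`.  No independence is assumed.
-/

open MeasureTheory Filter
open scoped Topology

namespace Pool.Agent.Results.MP_40574a_nt.SievedModels

/-- the values `p = x + 2 y + 5 z` at the representations `n = x² + y² + z² + w²` for which `p - 2`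
(positive), `p`, `p + 4`, `p + 10` all belong to `S` -/
def vals (S : Set ℕ) (n : ℕ) : Set ℕ :=
  {p | 2 < p ∧ p - 2 ∈ S ∧ p ∈ S ∧ p + 4 ∈ S ∧ p + 10 ∈ S ∧
    ∃ x y z w : ℕ, n = x ^ 2 + y ^ 2 + z ^ 2 + w ^ 2 ∧ p = x + 2 * y + 5 * z}

open Pool.Agent.N909.TF

open Classical in
/-- the possible `p` -/
noncomputable def fam (n : ℕ) : Finset ℕ :=
  (Finset.Ioc 2 (Nat.sqrt (30 * n))).filter
    (fun p => ∃ x y z w : ℕ, n = x ^ 2 + y ^ 2 + z ^ 2 + w ^ 2 ∧ p = x + 2 * y + 5 * z)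

/-- the numbers which have to be chosen -/
def tup (_n p : ℕ) : Finset ℕ := {p - 2, p, p + 4, p + 10}

lemma mem_tup (n p t : ℕ) : t ∈ tup n p ↔ t = p - 2 ∨ t = p ∨ t = p + 4 ∨ t = p + 10 := by
  unfold tup
  simp only [Finset.mem_insert, Finset.mem_singleton]

lemma all_tup (S : Set ℕ) (n p : ℕ) :
    (∀ t ∈ tup n p, t ∈ S) ↔ (p - 2 ∈ S ∧ p ∈ S ∧ p + 4 ∈ S ∧ p + 10 ∈ S) := by
  unfold tup
  simp only [Finset.mem_insert, Finset.mem_singleton, forall_eq_or_imp, forall_eq]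

/-- the values are small -/
lemma small {n p x y z w : ℕ} (h : n = x ^ 2 + y ^ 2 + z ^ 2 + w ^ 2) (hp : p = x + 2 * y + 5 * z) :
    p ^ 2 ≤ 30 * n := by
  subst h hp
  have h0 : ((x : ℤ) + 2 * y + 5 * z) ^ 2 ≤ 30 * ((x : ℤ) ^ 2 + y ^ 2 + z ^ 2 + w ^ 2) := by
    nlinarith [sq_nonneg ((x : ℤ) * 2 - y), sq_nonneg ((x : ℤ) * 5 - z), sq_nonneg ((y : ℤ) * 5 - 2 * z),
      sq_nonneg (w : ℤ)]
  exact_mod_cast h0

open Classical in
lemma vals_eq (S : Set ℕ) (n : ℕ) :
    vals S n = (((fam n).filter (fun p => ∀ t ∈ tup n p, t ∈ S) : Finset ℕ) : Set ℕ) := by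
  ext p
  simp only [Finset.coe_filter, Set.mem_ofPred_eq, all_tup]
  unfold vals fam
  simp only [Set.mem_ofPred_eq, Finset.mem_filter, Finset.mem_Ioc]
  constructor
  · rintro ⟨h1, h2, h3, h4, h5, x, y, z, w, h6, h7⟩
    exact ⟨⟨⟨h1, Nat.le_sqrt'.2 (small h6 h7)⟩, x, y, z, w, h6, h7⟩, h2, h3, h4, h5⟩
  · rintro ⟨⟨⟨h1, _⟩, h6⟩, h2, h3, h4, h5⟩
    exact ⟨h1, h2, h3, h4, h5, h6⟩

lemma vals_cop (Q n : ℕ) : (vals {k : ℕ | Nat.Coprime k Q} n).ncard = (cop (fam n) (tup n) Q).card := by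
  classical
  rw [vals_eq, Set.ncard_coe_finset]
  unfold cop
  congr 1
  ext m
  simp only [Finset.mem_filter, Set.mem_ofPred_eq]

lemma vals_cho {Ω : Type} (A : ℕ → Set Ω) (n : ℕ) (ω : Ω) :
    (vals {k : ℕ | ω ∈ A k} n).ncard = (cho A (fam n) (tup n) ω).card := by
  classical
  rw [vals_eq, Set.ncard_coe_finset]
  unfold cho
  congr 1

/-- a residue class of admissible `p` -/
lemma local_ok (Q : ℕ) (hQ : 0 < Q) : ∃ x : ℕ, ∀ p, p ≡ x [MOD 30 * Q] → 2 < p →
    Nat.Coprime p 30 ∧ Nat.Coprime (p - 2) Q ∧ Nat.Coprime p Q ∧ Nat.Coprime (p + 4) Q ∧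
      Nat.Coprime (p + 10) Q := by
  classical
  obtain ⟨x, hx⟩ := crt_primes (30 * Q) (fun l => if l = 5 ∨ l = 11 then 3 else 1)
  have hQ30 : 30 * Q ≠ 0 := by omega
  refine ⟨x, fun p hp hp2 => ?_⟩
  have key : ∀ l, l.Prime → l ∣ 30 * Q → ¬ l ∣ (p - 2) ∧ ¬ l ∣ p ∧ ¬ l ∣ (p + 4) ∧ ¬ l ∣ (p + 10) := by
    intro l hl hlQ
    have h1 := hx p hp l hl hlQ hQ30
    by_cases h5 : l = 5
    · subst h5
      simp only [true_or, if_true] at h1
      have h2 : p % 5 = 3 := h1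
      refine ⟨fun h => ?_, fun h => ?_, fun h => ?_, fun h => ?_⟩ <;> omega
    · by_cases h11 : l = 11
      · subst h11
        simp only [or_true, if_true] at h1
        have h2 : p % 11 = 3 := h1
        refine ⟨fun h => ?_, fun h => ?_, fun h => ?_, fun h => ?_⟩ <;> omega
      · rw [if_neg (by tauto)] at h1
        refine ⟨fun h => ?_, fun h => ?_, fun h => ?_, fun h => ?_⟩
        · have h2 : p - 2 ≡ 0 [MOD l] := (Nat.modEq_zero_iff_dvd).2 h
          have h3 : p ≡ 2 [MOD l] := by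
            have := h2.add_right 2
            rwa [Nat.sub_add_cancel (by omega), zero_add] at this
          have h4 : 1 ≡ 2 [MOD l] := h1.symm.trans h3
          have h6 := (Nat.modEq_iff_dvd' (by norm_num : 1 ≤ 2)).1 h4
          exact hl.one_lt.ne' (Nat.dvd_one.1 (by simpa using h6))
        · have h2 := (h1.dvd_iff (dvd_refl l)).1 h
          exact hl.one_lt.ne' (Nat.dvd_one.1 h2)
        · have h2 := ((h1.add_right 4).dvd_iff (dvd_refl l)).1 h
          exact h5 ((Nat.prime_dvd_prime_iff_eq hl (by norm_num)).1 h2)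
        · have h2 := ((h1.add_right 10).dvd_iff (dvd_refl l)).1 h
          exact h11 ((Nat.prime_dvd_prime_iff_eq hl (by norm_num)).1 h2)
  refine ⟨?_, ?_, ?_, ?_, ?_⟩ <;> rw [coprime_iff_primes]
  · intro l hl hl30
    exact (key l hl (dvd_mul_of_dvd_left hl30 Q)).2.1
  · intro l hl hlQ
    exact (key l hl (dvd_mul_of_dvd_right hlQ 30)).1
  · intro l hl hlQ
    exact (key l hl (dvd_mul_of_dvd_right hlQ 30)).2.1
  · intro l hl hlQ
    exact (key l hl (dvd_mul_of_dvd_right hlQ 30)).2.2.1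
  · intro l hl hlQ
    exact (key l hl (dvd_mul_of_dvd_right hlQ 30)).2.2.2

/-- integers of a residue class in an interval -/
lemma many_shift (M r a b : ℕ) (hM : 0 < M) :
    (b - a) / M ≤ ((Finset.Ioc a b).filter (fun m => m ≡ r [MOD M])).card := by
  classical
  obtain ⟨M', rfl⟩ : ∃ M', M = M' + 1 := ⟨M - 1, by omega⟩
  refine (many_class (M' + 1) (r + a * M') (b - a) hM).trans ?_
  refine Finset.card_le_card_of_injOn (fun m => m + a) ?_ ?_
  · intro m hm
    rw [Finset.coe_filter, Set.mem_ofPred_eq, Finset.mem_Ioc] at hm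
    rw [Finset.coe_filter, Set.mem_ofPred_eq, Finset.mem_Ioc]
    obtain ⟨⟨m1, m2⟩, m3⟩ := hm
    refine ⟨⟨by show a < m + a; omega, by show m + a ≤ b; omega⟩, ?_⟩
    have h1 : m + a ≡ r + a * M' + a [MOD M' + 1] := m3.add_right a
    have h2 : r + a * M' + a = r + a * (M' + 1) := by ring
    rw [h2] at h1
    refine h1.trans ?_
    show (r + a * (M' + 1)) % (M' + 1) = r % (M' + 1)
    rw [Nat.add_mul_mod_self_right]
  · intro m _ m' _ h
    simpa using h

lemma sqrt_lower (m : ℕ) : √(m : ℝ) - 1 ≤ Nat.sqrt m := by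
  have h5 : √(m : ℝ) < Nat.sqrt m + 1 := by
    rw [Real.sqrt_lt' (by positivity)]
    have := Nat.lt_succ_sqrt' m
    have h6 : (m : ℝ) < ((Nat.sqrt m + 1 : ℕ) : ℝ) ^ 2 := by exact_mod_cast this
    push_cast at h6
    exact h6
  linarith

lemma sqrt_upper (m : ℕ) : (Nat.sqrt m : ℝ) ≤ √(m : ℝ) := by
  apply Real.le_sqrt_of_sq_le
  exact_mod_cast Nat.sqrt_le' m

lemma many (Q : ℕ) (hQ : 0 < Q) :
    ∀ᶠ n : ℕ in atTop ⊓ 𝓟 {n : ℕ | ¬ 4 ∣ n},
      1 / (400 * (Q : ℝ)) * (n : ℝ) ^ (1 / 2 : ℝ) ≤ (cop (fam n) (tup n) Q).card := by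
  classical
  rw [eventually_inf_principal]
  have h1 : ∀ᶠ n : ℕ in atTop, 10000 * (Q : ℝ) ≤ (n : ℝ) ^ (1 / 2 : ℝ) :=
    ((tendsto_rpow_atTop (by norm_num : (0:ℝ) < 1 / 2)).comp tendsto_natCast_atTop_atTop).eventually_ge_atTop _
  filter_upwards [h1, eventually_gt_atTop 0] with n g1 g2 g4
  obtain ⟨x, hx⟩ := local_ok Q hQ
  have h2 := many_shift (30 * Q) x (Nat.sqrt (29 * n)) (Nat.sqrt (30 * n)) (by omega)
  have h3 : ((Finset.Ioc (Nat.sqrt (29 * n)) (Nat.sqrt (30 * n))).filter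
      (fun m => m ≡ x [MOD 30 * Q])).card ≤ (cop (fam n) (tup n) Q).card := by
    apply Finset.card_le_card
    intro m hm
    rw [Finset.mem_filter, Finset.mem_Ioc] at hm
    obtain ⟨⟨m1, m2⟩, m3⟩ := hm
    have m4 : 29 * n < m ^ 2 := Nat.sqrt_lt'.1 m1
    have m5 : m ^ 2 ≤ 30 * n := Nat.le_sqrt'.1 m2
    have m6 : 2 < m := by
      by_contra hcon
      have : m ^ 2 ≤ 2 ^ 2 := Nat.pow_le_pow_left (by omega) 2
      omega
    obtain ⟨c0, c1, c2, c3, c4⟩ := hx m m3 m6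
    obtain ⟨a, b, c, e, h6, h7⟩ := Pool.Agent.H141R2.FS.rep g4 c0 m4.le m5
    unfold cop fam
    rw [Finset.mem_filter, Finset.mem_filter, Finset.mem_Ioc]
    refine ⟨⟨⟨m6, m2⟩, a, b, c, e, h6, h7.symm⟩, ?_⟩
    intro t ht
    rw [mem_tup] at ht
    rcases ht with rfl | rfl | rfl | rfl
    · exact c1
    · exact c2
    · exact c3
    · exact c4
  have hQ' : (1 : ℝ) ≤ Q := by exact_mod_cast hQ
  set a := Nat.sqrt (29 * n) with ha
  set b := Nat.sqrt (30 * n) with hb
  have h4 : √(30 * (n : ℝ)) - 1 ≤ b := by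
    have := sqrt_lower (30 * n)
    push_cast at this
    exact this
  have h5 : (a : ℝ) ≤ √(29 * (n : ℝ)) := by
    have := sqrt_upper (29 * n)
    push_cast at this
    exact this
  set s : ℝ := (n : ℝ) ^ (1 / 2 : ℝ) with hs
  have hss : √(n : ℝ) = s := by rw [hs, Real.sqrt_eq_rpow]
  have hab : a ≤ b := Nat.sqrt_le_sqrt (by omega)
  have h6 : s / 11 - 1 ≤ ((b - a : ℕ) : ℝ) := by
    rw [Nat.cast_sub hab]
    have k0 : 0 ≤ s := by rw [← hss]; exact Real.sqrt_nonneg _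
    have k1 : √(30 * (n : ℝ)) = √30 * s := by rw [Real.sqrt_mul (by norm_num), hss]
    have k2 : √(29 * (n : ℝ)) = √29 * s := by rw [Real.sqrt_mul (by norm_num), hss]
    have k3 : (1 : ℝ) / 11 ≤ √30 - √29 := by
      have e1 : √(30 : ℝ) ^ 2 = 30 := Real.sq_sqrt (by norm_num)
      have e2 : √(29 : ℝ) ^ 2 = 29 := Real.sq_sqrt (by norm_num)
      have e3 : √(30 : ℝ) ≤ 5.5 := by
        rw [Real.sqrt_le_left (by norm_num)]
        norm_num
      have e4 : √(29 : ℝ) ≤ 5.5 := by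
        rw [Real.sqrt_le_left (by norm_num)]
        norm_num
      have e5 := Real.sqrt_nonneg (30 : ℝ)
      have e6 := Real.sqrt_nonneg (29 : ℝ)
      have e7 : √(29 : ℝ) ≤ √30 := Real.sqrt_le_sqrt (by norm_num)
      nlinarith
    rw [k1] at h4
    rw [k2] at h5
    nlinarith
  have h8 : ((b - a : ℕ) : ℝ) / (30 * Q) - 1 ≤ (((b - a) / (30 * Q) : ℕ) : ℝ) := by
    have h9 := Nat.lt_div_mul_add (a := b - a) (b := 30 * Q) (by omega)
    have h10 : ((b - a : ℕ) : ℝ) < (((b - a) / (30 * Q) : ℕ) : ℝ) * (30 * Q) + 30 * Q := by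
      exact_mod_cast h9
    rw [sub_le_iff_le_add, div_le_iff₀ (by linarith)]
    linarith
  have h11 : (((b - a) / (30 * Q) : ℕ) : ℝ) ≤ (cop (fam n) (tup n) Q).card := by
    exact_mod_cast h2.trans h3
  refine le_trans ?_ (h8.trans h11)
  have h12 : (s / 11 - 1) / (30 * Q) ≤ ((b - a : ℕ) : ℝ) / (30 * Q) := by gcongr
  have h13 : 1 / (400 * (Q : ℝ)) * s ≤ (s / 11 - 1) / (30 * Q) - 1 := by
    rw [le_sub_iff_add_le, le_div_iff₀ (by linarith)]
    have e1 : (1 / (400 * (Q : ℝ)) * s + 1) * (30 * Q) = s * (30 / 400) + 30 * Q := by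
      field_simp
    rw [e1]
    linarith
  linarith

/-- few exceptional `p` -/
lemma few (δ : ℝ) (hδ : 0 < δ) : ∃ η : ℝ, 0 < η ∧ ∀ᶠ n : ℕ in atTop,
    ((far (fam n) (tup n) (1 / 2 * Real.log n) δ).card : ℝ) ≤ (n : ℝ) ^ (1 / 2 - η : ℝ) := by
  classical
  set d : ℝ := min δ (1 / 4) with hd
  have hd0 : 0 < d := by rw [hd]; positivity
  have hd1 : d ≤ 1 / 4 := min_le_right _ _
  refine ⟨d / 4, by positivity, ?_⟩
  have h1 : ∀ᶠ n : ℕ in atTop, (4 : ℝ) ≤ (n : ℝ) ^ (d / 4 : ℝ) :=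
    ((tendsto_rpow_atTop (by positivity : (0:ℝ) < d / 4)).comp tendsto_natCast_atTop_atTop).eventually_ge_atTop _
  have h2 : ∀ᶠ n : ℕ in atTop, Real.log 16 ≤ d / 2 * Real.log n :=
    ((Real.tendsto_log_atTop.comp tendsto_natCast_atTop_atTop).const_mul_atTop
      (by positivity : (0:ℝ) < d / 2)).eventually_ge_atTop _
  filter_upwards [h1, h2, eventually_gt_atTop 1] with n g1 g2 g3
  have hn : (1 : ℝ) < n := by exact_mod_cast g3
  have hn0 : (0 : ℝ) < n := by linarith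
  have hL : 0 < Real.log n := Real.log_pos hn
  set y : ℝ := (n : ℝ) ^ ((1 - d) / 2) with hy
  have hy0 : 0 < y := Real.rpow_pos_of_pos hn0 _
  have hy1 : 1 ≤ y := Real.one_le_rpow hn.le (by linarith)
  have hsn : (1 : ℝ) ≤ √(n : ℝ) := by
    rw [Real.one_le_sqrt]
    exact hn.le
  have hlogs : Real.log (√(n : ℝ)) = 1 / 2 * Real.log n := by
    rw [Real.log_sqrt hn0.le]
    ring
  have hlogy : Real.log y = (1 - d) / 2 * Real.log n := by rw [hy, Real.log_rpow hn0]
  have h3 : far (fam n) (tup n) (1 / 2 * Real.log n) δ ⊆ Finset.Icc 0 (⌊y⌋₊ + 2) := by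
    intro p hp
    unfold far at hp
    rw [Finset.mem_filter] at hp
    obtain ⟨p1, t, p2, p3⟩ := hp
    unfold fam at p1
    rw [Finset.mem_filter, Finset.mem_Ioc] at p1
    obtain ⟨⟨p4, p5⟩, _⟩ := p1
    rw [Finset.mem_Icc]
    refine ⟨Nat.zero_le _, ?_⟩
    by_contra hcon
    push Not at hcon
    apply absurd p3
    push Not
    rw [mem_tup] at p2
    have t1 : p - 2 ≤ t := by omega
    have t2 : t ≤ p + 10 := by omega
    have t3 : y ≤ t := by
      have : ⌊y⌋₊ + 1 ≤ t := by omega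
      have h5 : ((⌊y⌋₊ + 1 : ℕ) : ℝ) ≤ t := by exact_mod_cast this
      push_cast at h5
      linarith [Nat.lt_floor_add_one y]
    have ht0 : (0 : ℝ) < t := lt_of_lt_of_le hy0 t3
    have t4 : (t : ℝ) ≤ 16 * √(n : ℝ) := by
      have h5 : (p : ℝ) ≤ √(30 * (n : ℝ)) := by
        have h6 : (p : ℝ) ≤ (Nat.sqrt (30 * n) : ℝ) := by exact_mod_cast p5
        have h7 := sqrt_upper (30 * n)
        push_cast at h7
        linarith
      have h6 : √(30 * (n : ℝ)) = √30 * √(n : ℝ) := Real.sqrt_mul (by norm_num) _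
      have h7 : √(30 : ℝ) ≤ 6 := by
        rw [Real.sqrt_le_left (by norm_num)]
        norm_num
      have h8 : (t : ℝ) ≤ p + 10 := by exact_mod_cast t2
      rw [h6] at h5
      nlinarith
    have l1 : Real.log y ≤ Real.log t := Real.log_le_log hy0 t3
    have l2 : Real.log t ≤ Real.log 16 + 1 / 2 * Real.log n := by
      rw [← hlogs, ← Real.log_mul (by norm_num) (by linarith)]
      exact Real.log_le_log ht0 t4
    rw [hlogy] at l1
    have l3 : d * (1 / 2 * Real.log n) ≤ δ * (1 / 2 * Real.log n) :=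
      mul_le_mul_of_nonneg_right (min_le_left _ _) (by positivity)
    rw [abs_le]
    constructor <;> nlinarith
  have h4 : ((far (fam n) (tup n) (1 / 2 * Real.log n) δ).card : ℝ) ≤ y + 3 := by
    have h5 := Finset.card_le_card h3
    rw [Nat.card_Icc] at h5
    have h6 : ((far (fam n) (tup n) (1 / 2 * Real.log n) δ).card : ℝ) ≤ (⌊y⌋₊ : ℝ) + 3 := by
      have : (far (fam n) (tup n) (1 / 2 * Real.log n) δ).card ≤ ⌊y⌋₊ + 3 := by omega
      exact_mod_cast this
    linarith [Nat.floor_le hy0.le]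
  have h5 : (n : ℝ) ^ (1 / 2 - d / 4 : ℝ) = y * (n : ℝ) ^ (d / 4 : ℝ) := by
    rw [hy, ← Real.rpow_add hn0]
    congr 1
    ring
  rw [h5]
  nlinarith

end Pool.Agent.Results.MP_40574a_nt.SievedModels

open Pool.Agent.Results.MP_40574a_nt.SievedModels Pool.Agent.N909.TF

/-- Let `A n` be the event that `n` belongs to a random set adapted to a filtration `ℱ`, let
`Q ≥ 1`, let no integer which is not coprime to `Q` be chosen, and let the conditional probability of
`A (n + 1)` given `ℱ n`, times `log n`, tend to `Q / φ(Q)` along the `n` with `n + 1` coprime to `Q`,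
almost surely.  Let `R(n)` be the number of values `p > 2` of `x + 2 y + 5 z` at the representations
`n = x² + y² + z² + w²` for which `p - 2`, `p`, `p + 4`, `p + 10` are chosen, and `N(n)` the number of
those for which they are coprime to `Q`.  (1) `N(n) ≥ √n / (400 Q)` for all large `n` not divisible by
`4`.  (2) Almost surely `R(n)` is asymptotic to `N(n) ((Q / φ(Q)) / ((1/2) log n))⁴` as `n → ∞`,
`4 ∤ n`.  (3) Almost surely `R(n) ≥ √n / (50 Q (log n)⁴)` for all large `n` with `4 ∤ n`; in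
particular every large `n` not divisible by `4` is `x² + y² + z² + w²` with `p - 2`, `p`, `p + 4`,
`p + 10` chosen, `p = x + 2 y + 5 z`. -/
theorem Pool.Agent.Results.MP_40574a_nt.SievedModels.result
    {Ω : Type} [mΩ : MeasurableSpace Ω] (μ : Measure Ω) [IsProbabilityMeasure μ]
    (ℱ : Filtration ℕ mΩ) (A : ℕ → Set Ω) (hA : ∀ n, MeasurableSet[ℱ n] (A n))
    (Q : ℕ) (hQ : 0 < Q) (hcop : ∀ n, ¬ Nat.Coprime n Q → A n = ∅)
    (hd : ∀ᵐ ω ∂μ, Tendsto (fun n : ℕ =>
      (μ[(A (n + 1)).indicator (fun _ => (1 : ℝ)) | ℱ n]) ω * Real.log n)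
      (atTop ⊓ 𝓟 {n : ℕ | Nat.Coprime (n + 1) Q}) (𝓝 ((Q : ℝ) / Nat.totient Q))) :
    (∀ᶠ n : ℕ in atTop, ¬ 4 ∣ n → √(n : ℝ) / (400 * Q) ≤ (vals {k : ℕ | Nat.Coprime k Q} n).ncard) ∧
    (∀ᵐ ω ∂μ, ∀ ε : ℝ, 0 < ε → ∀ᶠ n : ℕ in atTop, ¬ 4 ∣ n →
      |((vals {k : ℕ | ω ∈ A k} n).ncard : ℝ) -
        (vals {k : ℕ | Nat.Coprime k Q} n).ncard * (((Q : ℝ) / Nat.totient Q) / (1 / 2 * Real.log n)) ^ 4| ≤
      ε * ((vals {k : ℕ | Nat.Coprime k Q} n).ncard *
        (((Q : ℝ) / Nat.totient Q) / (1 / 2 * Real.log n)) ^ 4)) ∧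
    (∀ᵐ ω ∂μ, ∀ᶠ n : ℕ in atTop, ¬ 4 ∣ n →
      √(n : ℝ) / (50 * Q * Real.log n ^ 4) ≤ (vals {k : ℕ | ω ∈ A k} n).ncard ∧
      ∃ x y z w : ℕ, n = x ^ 2 + y ^ 2 + z ^ 2 + w ^ 2 ∧ 2 < x + 2 * y + 5 * z ∧
        ω ∈ A (x + 2 * y + 5 * z - 2) ∧ ω ∈ A (x + 2 * y + 5 * z) ∧
        ω ∈ A (x + 2 * y + 5 * z + 4) ∧ ω ∈ A (x + 2 * y + 5 * z + 10)) := by
  classical
  have h1 : ∀ᶠ n : ℕ in atTop, ¬ 4 ∣ n →
      √(n : ℝ) / (400 * Q) ≤ (vals {k : ℕ | Nat.Coprime k Q} n).ncard := by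
    have := many Q hQ
    rw [eventually_inf_principal] at this
    filter_upwards [this] with n g g4
    rw [vals_cop, Real.sqrt_eq_rpow, div_eq_mul_inv, mul_comm, ← one_div]
    exact g g4
  have h2 : ∀ᵐ ω ∂μ, ∀ ε : ℝ, 0 < ε → ∀ᶠ n : ℕ in atTop, ¬ 4 ∣ n →
      |((vals {k : ℕ | ω ∈ A k} n).ncard : ℝ) -
        (vals {k : ℕ | Nat.Coprime k Q} n).ncard * (((Q : ℝ) / Nat.totient Q) / (1 / 2 * Real.log n)) ^ 4| ≤
      ε * ((vals {k : ℕ | Nat.Coprime k Q} n).ncard *
        (((Q : ℝ) / Nat.totient Q) / (1 / 2 * Real.log n)) ^ 4) := by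
    have h3 := law (μ := μ) hA Q hQ hcop hd 4 fam tup (fun _ => 4)
      (fun n j hj => by
        unfold fam at hj
        rw [Finset.mem_filter, Finset.mem_Ioc] at hj
        have hj2 : 2 < j := hj.1.1
        unfold tup
        rw [Finset.card_insert_of_notMem, Finset.card_insert_of_notMem, Finset.card_insert_of_notMem,
          Finset.card_singleton]
        · rw [Finset.mem_singleton]; omega
        · simp only [Finset.mem_insert, Finset.mem_singleton]; omega
        · simp only [Finset.mem_insert, Finset.mem_singleton]; omega)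
      (fun n j hj => by
        unfold fam at hj
        rw [Finset.mem_filter, Finset.mem_Ioc] at hj
        have hj2 : 2 < j := hj.1.1
        rw [mem_tup]
        omega)
      (fun n t => by
        have : (fam n).filter (fun j => t ∈ tup n j) ⊆ {t + 2, t, t - 4, t - 10} := by
          intro p hp
          rw [Finset.mem_filter, mem_tup] at hp
          unfold fam at hp
          rw [Finset.mem_filter, Finset.mem_Ioc] at hp
          simp only [Finset.mem_insert, Finset.mem_singleton]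
          omega
        refine (Finset.card_le_card this).trans ?_
        exact Finset.card_le_four)
      (fun _ => by norm_num) (atTop ⊓ 𝓟 {n : ℕ | ¬ 4 ∣ n}) inf_le_left (1 / 2) (1 / 2) (1 / (400 * Q))
      (by norm_num) (by positivity) (many Q hQ)
      ⟨1 / 4, by norm_num, by
        refine Eventually.filter_mono inf_le_left ?_
        have h5 : ∀ᶠ n : ℕ in atTop, (4 : ℝ) ≤ (n : ℝ) ^ (1 / 2 - 1 / 4 : ℝ) :=
          ((tendsto_rpow_atTop (by norm_num : (0:ℝ) < 1 / 2 - 1 / 4)).comp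
            tendsto_natCast_atTop_atTop).eventually_ge_atTop _
        filter_upwards [h5] with n hn
        push_cast
        exact hn⟩
      (fun δ hδ => by
        obtain ⟨η, hη, h6⟩ := few δ hδ
        exact ⟨η, hη, h6.filter_mono inf_le_left⟩)
    filter_upwards [h3] with ω hω ε hε
    have h7 := hω ε hε
    rw [eventually_inf_principal] at h7
    filter_upwards [h7] with n g g4
    rw [vals_cop, vals_cho]
    exact g g4
  refine ⟨h1, h2, ?_⟩
  filter_upwards [h2] with ω hω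
  filter_upwards [hω (1 / 2) (by norm_num), h1, eventually_gt_atTop 1] with n g1' g2' g3 g4
  have g1 := g1' g4
  have g2 := g2' g4
  have hn : (1 : ℝ) < n := by exact_mod_cast g3
  have hL : 0 < Real.log n := Real.log_pos hn
  have hc := cQ_ge Q hQ
  have hQ0 : (0 : ℝ) < Q := by exact_mod_cast hQ
  have k1 := (abs_le.1 g1).1
  set N : ℝ := ((vals {k : ℕ | Nat.Coprime k Q} n).ncard : ℝ)
  set c : ℝ := (Q : ℝ) / Nat.totient Q
  have k2 : √(n : ℝ) / (400 * Q) * (1 / (1 / 2 * Real.log n)) ^ 4 ≤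
      N * (c / (1 / 2 * Real.log n)) ^ 4 := by
    apply mul_le_mul g2 _ (by positivity) (Nat.cast_nonneg _)
    gcongr
  have k3 : √(n : ℝ) / (50 * Q * Real.log n ^ 4) =
      1 / 2 * (√(n : ℝ) / (400 * Q) * (1 / (1 / 2 * Real.log n)) ^ 4) := by
    field_simp
    norm_num
  have k4 : √(n : ℝ) / (50 * Q * Real.log n ^ 4) ≤ (vals {k : ℕ | ω ∈ A k} n).ncard := by
    rw [k3]
    linarith
  refine ⟨k4, ?_⟩
  have hpos : 0 < (vals {k : ℕ | ω ∈ A k} n).ncard := by
    have : (0 : ℝ) < (vals {k : ℕ | ω ∈ A k} n).ncard := lt_of_lt_of_le (by positivity) k4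
    exact_mod_cast this
  obtain ⟨p, m1, m2, m3, m4, m5, x, y, z, w, m6, rfl⟩ := Set.nonempty_of_ncard_ne_zero hpos.ne'
  exact ⟨x, y, z, w, m6, m1, m2, m3, m4, m5⟩
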